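import Mathlib
import Pool.Agent.Helper88.PseudoPick

/-!
# A complete pseudo-Pick pair `(k, ℓ)` with `ℓ / k` not positive semidefinite
-/

open scoped ComplexOrder

namespace Pool.Agent.Results.MP_cbd977_an.PseudoPickFails

/-- `k` is a reproducing kernel on `X`: all the matrices `[k(z_i, z_j)]` are positive
semidefinite. -/
def IsReproducingKernel {X : Type*} (k : X → X → ℂ) : Prop :=
  ∀ (m : ℕ) (z : Fin m → X), (Matrix.of fun i j => k (z i) (z j)).PosSemidef

/-- `k` is strictly positive definite on `X`: the matrices `[k(z_i, z_j)]` with distinct points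
`z_i` are positive definite. -/
def IsStrictlyPositive {X : Type*} (k : X → X → ℂ) : Prop :=
  ∀ (m : ℕ) (z : Fin m → X), Function.Injective z →
    (Matrix.of fun i j => k (z i) (z j)).PosDef

/-- `Φ : X → M_n(ℂ)` is a contractive multiplier of `H ⊗ ℂⁿ`, where `H` is a (scalar valued)
reproducing kernel Hilbert space on `X`: for every `F` in the Hilbert space sum of `n` copies
of `H` the function `x ↦ Φ(x) F(x)` belongs to it, and its norm is at most the norm of `F`. -/
def IsContractiveMultiplier {X : Type*} (H : Type*) [NormedAddCommGroup H]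
    [InnerProductSpace ℂ H] [RKHS ℂ H X ℂ] {n : ℕ} (Φ : X → Matrix (Fin n) (Fin n) ℂ) : Prop :=
  ∀ F : PiLp 2 (fun _ : Fin n => H), ∃ G : PiLp 2 (fun _ : Fin n => H),
    (∀ (x : X) (i : Fin n), (G i) x = ∑ j, Φ x i j * (F j) x) ∧ ‖G‖ ≤ ‖F‖

/-- The block Pick matrix `[(I - W_i W_j*) k(z_i, z_j)]`. -/
def pickMatrix {X : Type*} (k : X → X → ℂ) {n : ℕ} (z : Fin n → X)
    (W : Fin n → Matrix (Fin n) (Fin n) ℂ) : Matrix (Fin n × Fin n) (Fin n × Fin n) ℂ :=
  Matrix.of fun p q => (1 - W p.1 * (W q.1).conjTranspose) p.2 q.2 * k (z p.1) (z q.1)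

/-- The pair `(k, ℓ)` is complete pseudo-Pick, where `ℓ` is the kernel of the reproducing kernel
Hilbert space `H`. -/
def IsCompletePseudoPick {X : Type*} (k : X → X → ℂ) (H : Type*) [NormedAddCommGroup H]
    [InnerProductSpace ℂ H] [RKHS ℂ H X ℂ] : Prop :=
  ∀ n : ℕ, 1 ≤ n → ∀ (z : Fin n → X) (W : Fin n → Matrix (Fin n) (Fin n) ℂ),
    (pickMatrix k z W).PosSemidef →
      ∃ Φ : X → Matrix (Fin n) (Fin n) ℂ,
        IsContractiveMultiplier H Φ ∧ ∀ i, Φ (z i) = W i

/-- **Result.** There are a set `X`, two strictly positive definite kernels `k`, `ℓ` on `X`, `k`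
non-vanishing, such that `(k, ℓ)` is complete pseudo-Pick but `ℓ / k` is not positive
semidefinite.  Here `H` is the reproducing kernel Hilbert space of `ℓ`. -/
theorem result : ∃ (X : Type) (k ℓ : X → X → ℂ) (H : Type) (_ : NormedAddCommGroup H)
    (_ : InnerProductSpace ℂ H) (_ : CompleteSpace H) (_ : RKHS ℂ H X ℂ),
    IsReproducingKernel k ∧ IsReproducingKernel ℓ ∧
    IsStrictlyPositive k ∧ IsStrictlyPositive ℓ ∧
    (∀ x y, k x y ≠ 0) ∧
    (∀ x y, RKHS.kernel H x y 1 = ℓ x y) ∧
    IsCompletePseudoPick k H ∧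
    ¬ IsReproducingKernel (fun x y => ℓ x y / k x y) := by
  refine ⟨Fin 3, fun x y => ((Helper88.PseudoPick.kk x y : ℝ) : ℂ),
    fun x y => ((Helper88.PseudoPick.ll x y : ℝ) : ℂ),
    RKHS.OfKernel Helper88.PseudoPick.LL, inferInstance, inferInstance, inferInstance,
    inferInstance, ?_, ?_, ?_, ?_, ?_, Helper88.PseudoPick.kernel_LL, ?_, ?_⟩
  · intro m z
    exact Helper88.PseudoPick.posDef_kk.posSemidef.submatrix z
  · intro m z
    exact Helper88.PseudoPick.posDef_ll.posSemidef.submatrix z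
  · intro m z hz
    exact Helper88.PseudoPick.posDef_kk.submatrix hz
  · intro m z hz
    exact Helper88.PseudoPick.posDef_ll.submatrix hz
  · intro x y
    simp only [Helper88.PseudoPick.kk]
    split_ifs <;> norm_num
  · intro n hn z W h
    obtain ⟨Φ, h1, h2⟩ := Helper88.PseudoPick.main_ext hn z W h
    exact ⟨Φ, fun F => Helper88.PseudoPick.multiplier_of_form
      Helper88.PseudoPick.kernel_LL Φ h1 F, h2⟩
  · intro h
    exact Helper88.PseudoPick.not_psd (h 3 id)

end Pool.Agent.Results.MP_cbd977_an.PseudoPickFails
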